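import Pool.Agent.H38.SE.TarC

/-! # CB: a real of the extension which is eventually different from all elements of the Luzin set
agrees infinitely often with the generic real of a label -/

set_option linter.unusedVariables false

open Ordinal Order Set
open scoped ZFSet

namespace SE

open SF

/-! ### natural numbers -/

theorem cb_nS_mem {m n : ℕ} : nS m ∈ nS n ↔ m < n := by
  unfold nS
  rw [Ordinal.toZFSet_mem_toZFSet_iff]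
  exact Nat.cast_lt

theorem cb_mem_nS {n : ℕ} {x : V} : x ∈ nS n ↔ ∃ j < n, x = nS j := by
  constructor
  · intro h
    obtain ⟨a, ha, rfl⟩ := Ordinal.mem_toZFSet_iff.1 h
    obtain ⟨j, rfl⟩ := Ordinal.lt_omega0.1 (ha.trans (Ordinal.natCast_lt_omega0 n))
    exact ⟨j, Nat.cast_lt.1 ha, rfl⟩
  · rintro ⟨j, hj, rfl⟩
    exact cb_nS_mem.2 hj

theorem cb_nS_sub {m n : ℕ} : nS m ⊆ nS n ↔ m ≤ n := by
  constructor
  · intro h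
    by_contra hc
    push Not at hc
    have h1 := cb_nS_mem.1 (h (cb_nS_mem.2 hc))
    omega
  · intro h x hx
    obtain ⟨j, hj, rfl⟩ := cb_mem_nS.1 hx
    exact cb_nS_mem.2 (by omega)

theorem cb_nS_om (n : ℕ) : nS n ∈ om := mem_om.2 ⟨n, rfl⟩

/-! ### the sets `B` and `X` -/

/-- `(p, (l, m))` is in the set if `p` forces that the real differs from `l` above `m` -/
noncomputable def cbB (P L Y : V) : V := (ZFSet.prod P (ZFSet.prod L om)).sep fun z =>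
  ∀ n ∈ om, snd (snd z) ⊆ n → ∀ p' ∈ P, Le p' (fst z) → ∀ b ∈ sq, ZFSet.pair p' b ∈ Y →
    n ∈ dm b → app b n ≠ app (fst (snd z)) n

theorem cb_mB (hAF : T_AF) (hBBa : T_BBa) {M : V → Prop} (k : ZFm M) {P L Y : V} (hP : M P)
    (hL : M L) (hY : M Y) : M (cbB P L Y) := by
  obtain ⟨-, -, tsq, -⟩ := hAF
  obtain ⟨-, -, -, -, -, -, -, -, -, -, -, dLe, -⟩ := hBBa
  have h1 : Dfb ZFm (fun _ v => ZFSet.pair (v 1) (v 0) ∈ v 6 → v 2 ∈ dm (v 0) →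
      app (v 0) (v 2) ≠ app (fst (snd (v 3))) (v 2)) :=
    (Dfb.mem (Tm.pair (Tm.var 1) (Tm.var 0)) (Tm.var 6)).imp
      ((Dfb.mem (Tm.var 2) (Tm.dm (Tm.var 0))).imp
        (Dfb.eq (Tm.app (Tm.var 0) (Tm.var 2))
          (Tm.app (Tm.fst (Tm.snd (Tm.var 3))) (Tm.var 2))).not)
  have h2 : Dfb ZFm (fun _ v => Le (v 0) (fst (v 2)) → ∀ b ∈ sq, ZFSet.pair (v 0) b ∈ v 5 →
      v 1 ∈ dm b → app b (v 1) ≠ app (fst (snd (v 2))) (v 1)) :=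
    (Dfb.at2 (P := fun _ x y => Le x y) dLe (Tm.var 0) (Tm.fst (Tm.var 2))).imp
      (Dfb.ball ktr_zfm tsq h1)
  have h3 : Dfb ZFm (fun _ v => snd (snd (v 1)) ⊆ v 0 → ∀ p' ∈ v 2, Le p' (fst (v 1)) →
      ∀ b ∈ sq, ZFSet.pair p' b ∈ v 4 → v 0 ∈ dm b → app b (v 0) ≠ app (fst (snd (v 1))) (v 0)) :=
    (Dfb.subset (Tm.snd (Tm.snd (Tm.var 1))) (Tm.var 0)).imp
      (Dfb.ball ktr_zfm (Tm.var 2) h2)
  have h4 : Dfb ZFm (fun _ v => ∀ n ∈ om, snd (snd (v 0)) ⊆ n → ∀ p' ∈ v 1, Le p' (fst (v 0)) →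
      ∀ b ∈ sq, ZFSet.pair p' b ∈ v 3 → n ∈ dm b → app b n ≠ app (fst (snd (v 0))) n) :=
    Dfb.ball ktr_zfm Tm.om h3
  exact (Tm.sep h4 (Tm.prod (Tm.var 0) (Tm.prod (Tm.var 1) Tm.om))).1 M k
    (cons P (cons L fun _ => Y)) (In.cons (In.cons (fun _ => hY) hL) hP)

/-- the dense set -/
noncomputable def cbX (P l m B Y : V) : V := P.sep fun p =>
  ZFSet.pair p (ZFSet.pair l m) ∈ B ∨ ∃ n ∈ om, m ⊆ n ∧ ∃ b ∈ sq, ZFSet.pair p b ∈ Y ∧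
    n ∈ dm b ∧ app b n = app l n

theorem cb_mX (hAF : T_AF) {M : V → Prop} (k : ZFm M) {P l m B Y : V} (hP : M P)
    (hl : M l) (hm : M m) (hB : M B) (hY : M Y) : M (cbX P l m B Y) := by
  obtain ⟨-, -, tsq, -⟩ := hAF
  have h1 : Dfb ZFm (fun _ v => ZFSet.pair (v 2) (v 0) ∈ v 7 ∧ v 1 ∈ dm (v 0) ∧
      app (v 0) (v 1) = app (v 4) (v 1)) :=
    (Dfb.mem (Tm.pair (Tm.var 2) (Tm.var 0)) (Tm.var 7)).and
      ((Dfb.mem (Tm.var 1) (Tm.dm (Tm.var 0))).and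
        (Dfb.eq (Tm.app (Tm.var 0) (Tm.var 1)) (Tm.app (Tm.var 4) (Tm.var 1))))
  have h2 : Dfb ZFm (fun _ v => v 4 ⊆ v 0 ∧ ∃ b ∈ sq, ZFSet.pair (v 1) b ∈ v 6 ∧ v 0 ∈ dm b ∧
      app b (v 0) = app (v 3) (v 0)) :=
    (Dfb.subset (Tm.var 4) (Tm.var 0)).and (Dfb.bex ktr_zfm tsq h1)
  have h3 : Dfb ZFm (fun _ v => ZFSet.pair (v 0) (ZFSet.pair (v 2) (v 3)) ∈ v 4 ∨
      ∃ n ∈ om, v 3 ⊆ n ∧ ∃ b ∈ sq, ZFSet.pair (v 0) b ∈ v 5 ∧ n ∈ dm b ∧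
      app b n = app (v 2) n) :=
    (Dfb.mem (Tm.pair (Tm.var 0) (Tm.pair (Tm.var 2) (Tm.var 3))) (Tm.var 4)).or
      (Dfb.bex ktr_zfm Tm.om h2)
  exact (Tm.sep h3 (Tm.var 0)).1 M k (cons P (cons l (cons m (cons B fun _ => Y))))
    (In.cons (In.cons (In.cons (In.cons (fun _ => hY) hB) hm) hl) hP)

/-- the statement which is forced; the arguments are `G, Y, L, ρ` -/
def cbPhi (G Y L ρ : V) : Prop :=
  (∀ l ∈ L, ∃ m ∈ om, ∀ n ∈ om, m ⊆ n → app (ev G Y) n ≠ app l n) ∧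
    ∀ i ∈ ρ, ∃ m ∈ om, ∀ n ∈ om, m ⊆ n → app (ev G Y) n ≠ app (cg G i) n

theorem cb_dPhi (hBBb : T_BBb) : Dfb ZFm (fun _ v => cbPhi (v 0) (v 1) (v 2) (v 3)) := by
  obtain ⟨-, -, -, -, tev, tcg, -⟩ := hBBb
  have e1 : ∀ i j : ℕ, Tm ZFm (fun _ v => ev (v i) (v j)) := fun i j =>
    Tm.at2 (F := fun _ x y => ev x y) tev (Tm.var i) (Tm.var j)
  have c1 : ∀ i j : ℕ, Tm ZFm (fun _ v => cg (v i) (v j)) := fun i j =>
    Tm.at2 (F := fun _ x y => cg x y) tcg (Tm.var i) (Tm.var j)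
  have h1 : Dfb ZFm (fun _ v => v 1 ⊆ v 0 → app (ev (v 3) (v 4)) (v 0) ≠ app (v 2) (v 0)) :=
    (Dfb.subset (Tm.var 1) (Tm.var 0)).imp
      (Dfb.eq (Tm.app (e1 3 4) (Tm.var 0)) (Tm.app (Tm.var 2) (Tm.var 0))).not
  have h2 : Dfb ZFm (fun _ v => ∀ n ∈ om, v 0 ⊆ n → app (ev (v 2) (v 3)) n ≠ app (v 1) n) :=
    Dfb.ball ktr_zfm Tm.om h1
  have h3 : Dfb ZFm (fun _ v => ∃ m ∈ om, ∀ n ∈ om, m ⊆ n →
      app (ev (v 1) (v 2)) n ≠ app (v 0) n) := Dfb.bex ktr_zfm Tm.om h2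
  have h4 : Dfb ZFm (fun _ v => ∀ l ∈ v 2, ∃ m ∈ om, ∀ n ∈ om, m ⊆ n →
      app (ev (v 0) (v 1)) n ≠ app l n) := Dfb.ball ktr_zfm (Tm.var 2) h3
  have g1 : Dfb ZFm (fun _ v => v 1 ⊆ v 0 → app (ev (v 3) (v 4)) (v 0) ≠
      app (cg (v 3) (v 2)) (v 0)) :=
    (Dfb.subset (Tm.var 1) (Tm.var 0)).imp
      (Dfb.eq (Tm.app (e1 3 4) (Tm.var 0)) (Tm.app (c1 3 2) (Tm.var 0))).not
  have g2 : Dfb ZFm (fun _ v => ∀ n ∈ om, v 0 ⊆ n → app (ev (v 2) (v 3)) n ≠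
      app (cg (v 2) (v 1)) n) := Dfb.ball ktr_zfm Tm.om g1
  have g3 : Dfb ZFm (fun _ v => ∃ m ∈ om, ∀ n ∈ om, m ⊆ n →
      app (ev (v 1) (v 2)) n ≠ app (cg (v 1) (v 0)) n) := Dfb.bex ktr_zfm Tm.om g2
  have g4 : Dfb ZFm (fun _ v => ∀ i ∈ v 3, ∃ m ∈ om, ∀ n ∈ om, m ⊆ n →
      app (ev (v 0) (v 1)) n ≠ app (cg (v 0) i) n) := Dfb.ball ktr_zfm (Tm.var 3) g3
  exact h4.and g4

/-! ### the change of a sequence at one place -/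

open Classical in
/-- `x` up to `N` with the value at `a` changed to `u` -/
noncomputable def cbc (x u : V) (a N : ℕ) : V :=
  resS (nS N) fun n => if n = nS a then u else app x n

theorem cb_sq_cbc {x u : V} (hx : ∀ n : ℕ, app x (nS n) ∈ hf) (hu : u ∈ hf) (a N : ℕ) :
    Sq N (cbc x u a N) := by
  refine isFunc_resS _ _ _ fun n hn => ?_
  obtain ⟨j, hj, rfl⟩ := cb_mem_nS.1 hn
  split_ifs
  · exact hu
  · exact hx j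

theorem cb_app_cbc {x u : V} {a N n : ℕ} (hn : n < N) :
    app (cbc x u a N) (nS n) = if n = a then u else app x (nS n) := by
  unfold cbc
  rw [app_resS (cb_nS_mem.2 hn)]
  by_cases h : n = a
  · rw [if_pos h, if_pos (by rw [h])]
  · rw [if_neg h, if_neg (fun h' => h (nS_inj.1 h'))]

/-! ### the main argument -/

/-- a set of the ground model decides `Φ` -/
theorem cb_force (hBBb : T_BBb) (hBD : T_BD) (hBJ : T_BJ) (hDS : CAA.T_DS) {D : Cx} (hD : D.Ok)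
    {ρ G Y : V} (hρ : D.N ρ) (hC : Cld D.L ρ) (hG : D.Gn ρ G) (hY : D.N Y)
    (hP : cbPhi G Y D.L ρ) :
    ∃ q0 ∈ G, ∀ G', D.Gn ρ G' → q0 ∈ G' → cbPhi G' Y D.L ρ := by
  obtain ⟨hLN, -, -, hPR, hJ⟩ := hBJ D hD
  obtain ⟨-, hJ2⟩ := hJ ρ hρ hC
  obtain ⟨-, ⟨hGsub, -⟩, -⟩ := hJ2 G hG
  obtain ⟨O, hO, hO2⟩ := hDS _ (cb_dPhi hBBb)
  have hv : In D.N (cons Y (cons D.L fun _ => ρ)) := In.cons (In.cons (fun _ => hρ) hLN) hY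
  obtain ⟨-, h2, h3⟩ := hO2 D.N (D.P ρ) (D.R ρ) (cons Y (cons D.L fun _ => ρ)) hD.zfc.toZFm
    (hPR ρ hρ).1 (hPR ρ hρ).2 (hBD.2.2.2.2.2.2.2 _ _) hv
  obtain ⟨q0, hq0, hqO⟩ := (h2 G hG).1 hP
  exact ⟨q0, hq0, fun G' hG' hq' => (h3 hD.ctb q0 (hGsub hq0)).1 hqO G' hG' hq'⟩

/-- the hypothesis of CA -/
theorem cb_hyp (hAF : T_AF) (hAG : T_AG) (hBJ : T_BJ) (hBK : T_BK) {D : Cx} (hD : D.Ok)
    {ρ Y q0 : V} (hρ : D.N ρ) (hC : Cld D.L ρ) (hY : D.N Y) (hN : Nam D.L ρ Y)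
    (hTr : Tr ρ) (hq0 : q0 ∈ D.P ρ) (hB : D.N (cbB (D.P ρ) D.L Y))
    (hf : ∀ G', D.Gn ρ G' → q0 ∈ G' → cbPhi G' Y D.L ρ) :
    ∀ l ∈ D.L, ∃ p ∈ D.P ρ, Le p q0 ∧ ∃ m ∈ om,
      ZFSet.pair p (ZFSet.pair l m) ∈ cbB (D.P ρ) D.L Y := by
  intro l hl
  have k := hD.zfc.toZFm
  obtain ⟨hLN, -, -, hPR, hJ⟩ := hBJ D hD
  obtain ⟨hJ1, hJ2⟩ := hJ ρ hρ hC
  obtain ⟨G', hG', hqG⟩ := hJ1 q0 hq0
  obtain ⟨-, ⟨hGsub, -⟩, hden⟩ := hJ2 G' hG'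
  obtain ⟨m, hm, hml⟩ := (hf G' hG' hqG).1 l hl
  have hlN : D.N l := k.trans _ hLN l hl
  have hmN : D.N m := k.trans _ k.inf m hm
  obtain ⟨hK1, -⟩ := hBK D hD ρ G' hρ hC hG'
  obtain ⟨hRl, -, hini, -⟩ := hK1 ρ Y hρ (fun _ h => h) hTr hY hN
  obtain ⟨r, hrG, hrX, hrq⟩ := hden (cbX (D.P ρ) l m (cbB (D.P ρ) D.L Y) Y) q0
    (cb_mX hAF k (hPR ρ hρ).1 hlN hmN hB hY) hqG (by
      intro q hq hqq
      by_cases h : ZFSet.pair q (ZFSet.pair l m) ∈ cbB (D.P ρ) D.L Y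
      · have hqr : Le q q := by
          intro i hi
          exact ⟨hi, fun _ h => h, fun _ h => h, fun n hn hn' => absurd hn hn'⟩
        exact ⟨q, ZFSet.mem_sep.2 ⟨hq, Or.inl h⟩, hq, hqr⟩
      · unfold cbB at h
        rw [ZFSet.mem_sep, fst_pair, snd_pair, fst_pair, snd_pair] at h
        have h1 : ¬ ∀ n ∈ om, m ⊆ n → ∀ p' ∈ D.P ρ, Le p' q → ∀ b ∈ sq,
            ZFSet.pair p' b ∈ Y → n ∈ dm b → app b n ≠ app l n := fun h2 =>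
          h ⟨ZFSet.pair_mem_prod.2 ⟨hq, ZFSet.pair_mem_prod.2 ⟨hl, hm⟩⟩, h2⟩
        push Not at h1
        obtain ⟨n, hn, hmn, p', hp', hle, b, hb, hbY, hnb, he⟩ := h1
        exact ⟨p', ZFSet.mem_sep.2 ⟨hp', Or.inr ⟨n, hn, hmn, b, hb, hbY, hnb, he⟩⟩, hp', hle⟩)
  obtain ⟨hrP, hr | ⟨n, hn, hmn, b, hb, hbY, hnb, he⟩⟩ := ZFSet.mem_sep.1 hrX
  · exact ⟨r, hrP, hrq, m, hm, hr⟩
  · exfalso
    have h1 : b ⊆ ev G' Y := (hini b hb).2 ⟨r, hrG, hbY⟩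
    have h2 : Svl (ev G' Y) := (hAG.1 _ hRl).1
    obtain ⟨y, hy⟩ := mem_dm.1 hnb
    obtain ⟨c, hc⟩ := (hAF.1 b).1 hb
    have h3 : app b n = y := app_eq (svl_of_isFunc hc) hy
    have h4 : app (ev G' Y) n = y := app_eq h2 (h1 hy)
    exact hml n hn hmn (by rw [h4, ← h3, he])

/-- common refinements in a generic filter -/
theorem cb_dense (hBC : T_BC) (hBD : T_BD) {L ρ G p0 : V} (hsub : G ⊆ Pos L ρ)
    (hj : ∀ p ∈ G, ∀ q ∈ G, ∃ r ∈ G, Le r p ∧ Le r q) (hp0 : p0 ∈ G) (a : ℕ) (A : Set V)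
    (hA : A.Finite)
    (h : ∀ i ∈ A, ∃ p ∈ G, i ∈ dm p ∧ nS a ∈ dm (fst (app p i))) :
    ∃ q ∈ G, Le q p0 ∧ ∀ i ∈ A, i ∈ dm q ∧ nS a ∈ dm (fst (app q i)) := by
  induction A, hA using Set.Finite.induction_on with
  | empty =>
    exact ⟨p0, hp0, (hBD.2.2.2.1 _ _ _ (hsub hp0)).1, fun i hi => absurd hi (Set.notMem_empty i)⟩
  | @insert i A hi hA ih =>
    obtain ⟨q, hq, hqp, hq2⟩ := ih fun i hi => h i (Set.mem_insert_of_mem _ hi)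
    obtain ⟨p, hp, hip, hap⟩ := h i (Set.mem_insert _ _)
    obtain ⟨r, hr, hrq, hrp⟩ := hj q hq p hp
    have key : ∀ (t i : V), Le r t → i ∈ dm t ∧ nS a ∈ dm (fst (app t i)) →
        i ∈ dm r ∧ nS a ∈ dm (fst (app r i)) := by
      rintro t i ht ⟨h1, h2⟩
      obtain ⟨h3, h4⟩ := ht i h1
      obtain ⟨y, hy⟩ := mem_dm.1 h2
      exact ⟨h3, mem_dm.2 ⟨y, h4.s hy⟩⟩
    refine ⟨r, hr, hBD.2.2.2.2.1 _ _ _ _ _ (hsub hp0) (hsub hq) (hsub hr) hrq hqp, ?_⟩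
    rintro j (rfl | hj)
    · exact key p j hrp ⟨hip, hap⟩
    · exact key q j hrq (hq2 j hj)

/-- a bound for finitely many natural numbers -/
theorem cb_bd (A : Set V) (hA : A.Finite) (P : V → ℕ → Prop) (h : ∀ i ∈ A, ∃ m, P i m) :
    ∃ N : ℕ, ∀ i ∈ A, ∃ m ≤ N, P i m := by
  induction A, hA using Set.Finite.induction_on with
  | empty => exact ⟨0, fun i hi => absurd hi (Set.notMem_empty i)⟩
  | @insert i A hi hA ih =>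
    obtain ⟨N, hN⟩ := ih fun i hi => h i (Set.mem_insert_of_mem _ hi)
    obtain ⟨m, hm⟩ := h i (Set.mem_insert _ _)
    refine ⟨max N m, ?_⟩
    rintro j (rfl | hj)
    · exact ⟨m, le_max_right _ _, hm⟩
    · obtain ⟨m', h1, h2⟩ := hN j hj
      exact ⟨m', h1.trans (le_max_left _ _), h2⟩

theorem pf_CB (hAB : T_AB) (_hAC : T_AC) (hAF : T_AF) (hAG : T_AG) (hBA : T_BA) (hBBa : T_BBa)
    (hBBb : T_BBb) (hBC : T_BC) (hBD : T_BD) (hBE : T_BE) (hBJ : T_BJ) (hBK : T_BK)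
    (_hBN : T_BN) (hBO : T_BO) (hCA : T_CA) (hDS : CAA.T_DS) : T_CB := by
  intro D hD ρ G hρ hC hG f hfW hfR hlu
  by_contra hno
  push Not at hno
  have k := hD.zfc.toZFm
  obtain ⟨hLN, -, -, hPR, hJ⟩ := hBJ D hD
  obtain ⟨hJ1, hJ2⟩ := hJ ρ hρ hC
  have hTr : Tr ρ := (hBA.2.2.2.2.2.2 _ _ hC).1
  -- the name
  obtain ⟨Y, hY, hNam, hev⟩ : ∃ Y, D.N Y ∧ Nam D.L ρ Y ∧ ev G Y = f := by
    obtain ⟨θ, hθ, rfl⟩ := hfW
    obtain ⟨Y, h1, h2, h3⟩ := (hBO D hD ρ hρ hC).1 θ hθ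
    exact ⟨Y, h1, h2, (h3 G hG).1 hfR⟩
  have hPhi : cbPhi G Y D.L ρ := by
    refine ⟨?_, ?_⟩
    · rw [hev]
      exact hlu
    · intro i hi
      obtain ⟨m, hm⟩ := hno i hi
      refine ⟨nS m, cb_nS_om m, ?_⟩
      intro n hn hmn
      obtain ⟨n, rfl⟩ := mem_om.1 hn
      rw [hev]
      exact hm n (cb_nS_sub.1 hmn)
  obtain ⟨q0, hq0G, hforce⟩ := cb_force hBBb hBD hBJ hDS hD hρ hC hG hY hPhi
  have hq0 : q0 ∈ D.P ρ := (hJ2 G hG).2.1.1 hq0G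
  have hBN' : D.N (cbB (D.P ρ) D.L Y) := cb_mB hAF hBBa k (hPR ρ hρ).1 hLN hY
  obtain ⟨τ, m, s0, j0, K, hτF, hτρ, hm, hj0, hτK, hs0, hreal⟩ :=
    hCA D hD ρ q0 (cbB (D.P ρ) D.L Y) hρ hC hq0 hBN'
      (cb_hyp hAF hAG hBJ hBK hD hρ hC hY hNam hTr hq0 hBN' hforce)
  -- the first realisation
  obtain ⟨p0, d0, hR0⟩ := hreal s0 hs0 (fun _ _ _ h => h) ∅ (Or.inl rfl)
  obtain ⟨G1, hG1, hp0G1⟩ := hJ1 p0 hR0.mp
  obtain ⟨-, ⟨hG1sub, -, hG1up, hG1j, -⟩, -⟩ := hJ2 G1 hG1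
  have hq0G1 : q0 ∈ G1 := hG1up p0 hp0G1 q0 hq0 hR0.lq
  obtain ⟨-, hPi⟩ := hforce G1 hG1 hq0G1
  obtain ⟨hK1, hK2⟩ := hBK D hD ρ G1 hρ hC hG1
  obtain ⟨hRl, -, -, -, hKn, -⟩ := hK1 ρ Y hρ (fun _ h => h) hTr hY hNam
  have hτfin : ((dm τ : V) : Set V).Finite := (hBC.1 τ hτF).2.1
  have hd0 : ∀ j ∈ nS K, Rl (app d0 j) := fun j hj => hD.lR _ (app_mem hR0.fd hj)
  have hs0sq : ∀ j ∈ nS K, app s0 j ∈ sq := fun j hj => app_mem hs0 hj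
  obtain ⟨mm, rfl⟩ := mem_om.1 hm
  -- the number `a`
  obtain ⟨N1, hN1⟩ := cb_bd (dm τ : Set V) hτfin (fun i m => ∀ n : ℕ, m ≤ n →
    app (ev G1 Y) (nS n) ≠ app (cg G1 i) (nS n)) (by
      intro i hi
      obtain ⟨m', hm', h1⟩ := hPi i (hτρ hi)
      obtain ⟨m', rfl⟩ := mem_om.1 hm'
      exact ⟨m', fun n hn => h1 (nS n) (cb_nS_om n) (cb_nS_sub.2 hn)⟩)
  obtain ⟨l0, hl0⟩ := (hAF.1 _).1 (hs0sq j0 hj0)
  obtain ⟨a, ha1, ha2, ha3⟩ : ∃ a : ℕ, N1 ≤ a ∧ l0 ≤ a ∧ mm ≤ a :=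
    ⟨max N1 (max l0 mm), le_max_left _ _, (le_max_left _ _).trans (le_max_right _ _),
      (le_max_right _ _).trans (le_max_right _ _)⟩
  have hcgne : ∀ i ∈ dm τ, app (ev G1 Y) (nS a) ≠ app (cg G1 i) (nS a) := by
    intro i hi
    obtain ⟨m', h1, h2⟩ := hN1 i hi
    exact h2 a (h1.trans ha1)
  -- the condition `q'`
  have hG1j' : ∀ p ∈ G1, ∀ q ∈ G1, ∃ r ∈ G1, Le r p ∧ Le r q := by
    intro p hp q hq
    obtain ⟨-, h2, h3, h4⟩ := hG1j p hp q hq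
    exact ⟨_, h2, h4, h3⟩
  obtain ⟨qa, hqa, hqap, hqa2⟩ := cb_dense hBC hBD hG1sub hG1j' hp0G1 a (dm τ : Set V) hτfin (by
    intro i hi
    obtain ⟨-, -, -, -, h1, -⟩ := hK2 i (hτρ hi)
    obtain ⟨p, hp, h2, h3, -⟩ := h1 a
    exact ⟨p, hp, h2, h3⟩)
  obtain ⟨qy, hqy, hqyY⟩ := hKn (a + 1)
  obtain ⟨q', hq', hq'a, hq'y⟩ := hG1j' qa hqa qy hqy
  have hq'P : q' ∈ D.P ρ := hG1sub hq'
  have hle : Le q' p0 := hBD.2.2.2.2.1 _ _ _ _ _ hR0.mp (hG1sub hqa) hq'P hq'a hqap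
  have hdq' : ∀ i ∈ dm τ, i ∈ dm q' ∧ nS a ∈ dm (fst (app q' i)) := by
    intro i hi
    obtain ⟨h1, h2⟩ := hqa2 i hi
    obtain ⟨h3, h4⟩ := hq'a i h1
    obtain ⟨y, hy⟩ := mem_dm.1 h2
    exact ⟨h3, mem_dm.2 ⟨y, h4.s hy⟩⟩
  obtain ⟨-, -, hAG3, -⟩ := hAG.1 _ hRl
  obtain ⟨hu0, -⟩ := hAG3 a
  obtain ⟨-, hSqb, -, hbapp⟩ := hAG3 (a + 1)
  generalize hb : rs (ev G1 Y) (nS (a + 1)) = b at *
  have hbY : ZFSet.pair q' b ∈ Y := hNam.mono _ _ hqyY _ hq'P hq'y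
  have hbu : app b (nS a) = app (ev G1 Y) (nS a) := hbapp a (Nat.lt_succ_self a)
  have hbdm : dm b = nS (a + 1) := ((hAF.2.2.2.2.1 _ _ hSqb).2.2.1)
  have hbsq : b ∈ sq := (hAF.1 b).2 ⟨_, hSqb⟩
  have hdiff : ∀ i ∈ dm τ, app (ev G1 Y) (nS a) ≠ app (fst (app q' i)) (nS a) := by
    intro i hi h
    obtain ⟨hcR, -, -, h1, -⟩ := hK2 i (hτρ hi)
    obtain ⟨h2, h3⟩ := hdq' i hi
    obtain ⟨h4, -⟩ := h1 q' hq' h2
    obtain ⟨y, hy⟩ := mem_dm.1 h3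
    have hsq : fst (app q' i) ∈ sq := (((hBC.2.2.2.1 _ _ _).1 hq'P).2.2 i h2).s
    obtain ⟨c, hc⟩ := (hAF.1 _).1 hsq
    refine hcgne i hi ?_
    rw [h, app_eq (svl_of_isFunc hc) hy, app_eq (hAG.1 _ hcR).1 (h4 hy)]
  generalize hu : app (ev G1 Y) (nS a) = u at *
  -- the bound `n'`
  obtain ⟨N2, hN2⟩ := cb_bd (dm τ : Set V) hτfin
    (fun i m => Sq m (fst (app q' i))) (by
      intro i hi
      have hsq : fst (app q' i) ∈ sq :=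
        (((hBC.2.2.2.1 _ _ _).1 hq'P).2.2 i (hdq' i hi).1).s
      exact (hAF.1 _).1 hsq)
  have hKfin : ((nS K : V) : Set V).Finite := by
    have h1 : ((nS K : V) : Set V) ⊆ (fun j : ℕ => (nS j : V)) '' (Set.Iio K) := by
      intro x hx
      obtain ⟨j, hj, rfl⟩ := cb_mem_nS.1 hx
      exact ⟨j, hj, rfl⟩
    exact ((Set.finite_Iio K).image _).subset h1
  obtain ⟨N3, hN3⟩ := cb_bd ((nS K : V) : Set V) hKfin (fun j m => Sq m (app s0 j)) (by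
    intro j hj
    exact (hAF.1 _).1 (hs0sq j hj))
  obtain ⟨N, hNa, hNq, hNs⟩ : ∃ N : ℕ, a < N ∧ N2 ≤ N ∧ N3 ≤ N :=
    ⟨max (a + 1) (max N2 N3), lt_of_lt_of_le (Nat.lt_succ_self a) (le_max_left _ _),
      (le_max_left _ _).trans (le_max_right _ _), (le_max_right _ _).trans (le_max_right _ _)⟩
  -- the sequences `s`
  classical
  obtain ⟨s, hs⟩ : ∃ s : V, s = resS (nS K) fun j =>
    if j = j0 then cbc (app d0 j) u a N else cbc (app d0 j) (app (app d0 j) (nS a)) a N := ⟨_, rfl⟩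
  have hd0v : ∀ j ∈ nS K, ∀ n : ℕ, app (app d0 j) (nS n) ∈ hf := fun j hj n =>
    ((hAG.1 _ (hd0 j hj)).2.2.1 n).1
  have hsj : ∀ j ∈ nS K, Sq N (app s j) ∧ ∀ n < N, app (app s j) (nS n) =
      if j = j0 ∧ n = a then u else app (app d0 j) (nS n) := by
    intro j hj
    rw [hs, app_resS hj]
    by_cases h : j = j0
    · rw [if_pos h]
      refine ⟨cb_sq_cbc (hd0v j hj) hu0 a N, fun n hn => ?_⟩
      rw [cb_app_cbc hn]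
      by_cases h2 : n = a
      · rw [if_pos h2, if_pos ⟨h, h2⟩]
      · rw [if_neg h2, if_neg fun h' => h2 h'.2]
    · rw [if_neg h]
      refine ⟨cb_sq_cbc (hd0v j hj) (hd0v j hj a) a N, fun n hn => ?_⟩
      rw [cb_app_cbc hn]
      by_cases h2 : n = a
      · rw [if_pos h2, if_neg (fun h' : j = j0 ∧ n = a => h h'.1), h2]
      · rw [if_neg h2, if_neg (fun h' : j = j0 ∧ n = a => h h'.1)]
  have hsF : ZFSet.IsFunc (nS K) sq s := by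
    rw [hs]
    refine isFunc_resS _ _ _ fun j hj => ?_
    have h1 := (hsj j hj).1
    rw [hs, app_resS hj] at h1
    exact (hAF.1 _).2 ⟨N, h1⟩
  have hext : ∀ j ∈ nS K, app s0 j ⊆ app s j := by
    intro j hj
    obtain ⟨n3, hn3, hsq3⟩ := hN3 j hj
    refine (hAF.2.2.2.2.2.2.1 _ _ _ _ hsq3 (hsj j hj).1).2 ⟨hn3.trans hNs, ?_⟩
    intro l hl
    rw [(hsj j hj).2 l (by omega)]
    have h1 : app s0 j ⊆ app d0 j := (hR0.ex j hj).1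
    have h2 : app (app s0 j) (nS l) = app (app d0 j) (nS l) := by
      have h3 : nS l ∈ dm (app s0 j) := by
        rw [(hAF.2.2.2.2.1 _ _ hsq3).2.2.1]
        exact cb_nS_mem.2 hl
      obtain ⟨y, hy⟩ := mem_dm.1 h3
      rw [app_eq (svl_of_isFunc hsq3) hy, app_eq (hAG.1 _ (hd0 j hj)).1 (h1 hy)]
    rw [if_neg, h2]
    rintro ⟨rfl, rfl⟩
    have h3 : n3 = l0 := by
      have e1 := (hAF.2.2.2.2.1 _ _ hsq3).2.2.1
      have e2 := (hAF.2.2.2.2.1 _ _ hl0).2.2.1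
      exact nS_inj.1 (e1.symm.trans e2)
    omega
  -- the second realisation
  have hdmq' : Ctbl D.N (dm q') := by
    obtain ⟨h1, h2, -⟩ := (hBC.2.2.2.1 _ _ _).1 hq'P
    exact (hAB.2.2 D.N k ρ (dm q') hρ h2 (hBC.1 _ h1).2.1).2
  obtain ⟨p, d, hR⟩ := hreal s hsF hext (dm q') hdmq'
  have hdR : ∀ j ∈ nS K, Rl (app d j) := fun j hj => hD.lR _ (app_mem hR.fd hj)
  have hdn : ∀ j ∈ nS K, ∀ n < N, app (app d j) (nS n) =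
      if j = j0 ∧ n = a then u else app (app d0 j) (nS n) := by
    intro j hj n hn
    rw [← (hsj j hj).2 n hn]
    have h3 : nS n ∈ dm (app s j) := by
      rw [(hAF.2.2.2.2.1 _ _ (hsj j hj).1).2.2.1]
      exact cb_nS_mem.2 hn
    obtain ⟨y, hy⟩ := mem_dm.1 h3
    rw [app_eq (svl_of_isFunc (hsj j hj).1) hy,
      app_eq (hAG.1 _ (hdR j hj)).1 ((hR.ex j hj).1 hy)]
  have hcmp : Cmp q' p := by
    intro i hiq hip
    have hiτ : i ∈ dm τ := hR.fr i hip hiq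
    have hip0 : i ∈ dm p0 := hR0.da hiτ
    obtain ⟨-, hQ⟩ := hle i hip0
    have hfe : fst (app p i) = fst (app p0 i) := (hR.si i hiτ).trans (hR0.si i hiτ).symm
    left
    rw [hfe]
    refine ⟨hQ.s, ?_⟩
    intro n hn hn' l hl
    rcases (hR.fi i hiτ l).1 hl with h1 | ⟨j, hj, rfl⟩
    · exact hQ.d n hn hn' l ((hR0.fi i hiτ l).2 (Or.inl h1))
    · have hjK : j ∈ nS K := hτK i hiτ hj
      obtain ⟨n2, hn2, hsq2⟩ := hN2 i hiτ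
      have h2 : n ∈ nS n2 := by
        rw [← (hAF.2.2.2.2.1 _ _ hsq2).2.2.1]
        exact hn
      obtain ⟨n, hnn, rfl⟩ := cb_mem_nS.1 h2
      rw [hdn j hjK n (by omega)]
      by_cases h3 : j = j0 ∧ n = a
      · rw [if_pos h3, h3.2]
        exact (hdiff i hiτ).symm
      · rw [if_neg h3]
        exact hQ.d _ hn hn' _ ((hR0.fi i hiτ _).2 (Or.inr ⟨j, hj, rfl⟩))
  obtain ⟨hrP, hrq, hrp, -⟩ := (hBE D.L ρ p q' hC hR.mp hq'P).1 hcmp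
  have hrb : ZFSet.pair (jn q' p) b ∈ Y := hNam.mono _ _ hbY _ hrP hrq
  have hmb := hR.mb
  unfold cbB at hmb
  rw [ZFSet.mem_sep, fst_pair, snd_pair, fst_pair, snd_pair] at hmb
  refine hmb.2 (nS a) (cb_nS_om a) (cb_nS_sub.2 ha3) _ hrP hrp b hbsq hrb ?_ ?_
  · rw [hbdm]
    exact cb_nS_mem.2 (Nat.lt_succ_self a)
  · rw [hbu, hdn j0 hj0 a hNa, if_pos ⟨rfl, rfl⟩]

end SE
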