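import Pool.Agent.H38.SE.TarC

/-! # CH: choice for definable relations -/

set_option linter.unusedVariables false

open Ordinal Order Set
open scoped ZFSet

namespace SE

open SF

/-- exchange of the first two arguments -/
def ch_sw : ℕ → ℕ
  | 0 => 1
  | 1 => 0
  | n + 2 => n + 2

theorem ch_sw_cons (x y : V) (v : ℕ → V) :
    (fun i => cons y (cons x v) (ch_sw i)) = cons x (cons y v) := by
  funext i
  match i with
  | 0 => rfl
  | 1 => rfl
  | n + 2 => rfl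

/-- arguments of `R` in the first occurrence -/
noncomputable def ch_F : ℕ → (V → Prop) → (ℕ → V) → V
  | 0 => fun _ v => fst (v 0)
  | 1 => fun _ v => snd (v 0)
  | n + 2 => fun _ v => v (n + 4)

theorem ch_tm_F (i : ℕ) : Tm ZFm (ch_F i) := by
  match i with
  | 0 => exact Tm.fst (Tm.var 0)
  | 1 => exact Tm.snd (Tm.var 0)
  | n + 2 => exact Tm.var (n + 4)

/-- arguments of `R` in the second occurrence; the variables are `δ γ z g a b v` -/
noncomputable def ch_G : ℕ → (V → Prop) → (ℕ → V) → V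
  | 0 => fun _ v => fst (v 2)
  | 1 => fun _ v => app (v 3) (v 0)
  | n + 2 => fun _ v => v (n + 6)

theorem ch_tm_G (i : ℕ) : Tm ZFm (ch_G i) := by
  match i with
  | 0 => exact Tm.fst (Tm.var 2)
  | 1 => exact Tm.app (Tm.var 3) (Tm.var 0)
  | n + 2 => exact Tm.var (n + 6)

theorem pf_CH : T_CH := by
  intro R hR M k v hv a ha hex
  -- Collection
  obtain ⟨φ, hφ⟩ := hR.rn ch_sw
  obtain ⟨b, hb, hb2⟩ := k.coll φ v a hv ha (by
    intro x hx
    obtain ⟨y, hy, hxy⟩ := hex x hx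
    refine ⟨y, hy, ?_⟩
    have h1 := (hφ M k.toZFm _ ((hv.cons (k.trans _ ha x hx)).cons hy))
    beta_reduce at h1
    rw [ch_sw_cons] at h1
    exact h1.2 hxy)
  have hb3 : ∀ x ∈ a, ∃ y ∈ b, R M (cons x (cons y v)) := by
    intro x hx
    obtain ⟨y, hy, hxy⟩ := hb2 x hx
    refine ⟨y, hy, ?_⟩
    have h1 := (hφ M k.toZFm _ ((hv.cons (k.trans _ ha x hx)).cons (k.trans _ hb y hy)))
    beta_reduce at h1
    rw [ch_sw_cons] at h1
    exact h1.1 hxy
  obtain ⟨α, g, hg, hon⟩ := k.wo b hb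
  have hgs : Svl g := svl_of_isFunc hon.1
  have hdg : ∀ γ, γ ∈ dm g ↔ γ ∈ α.toZFSet := by
    intro γ
    rw [mem_dm]
    constructor
    · rintro ⟨y, hy⟩
      exact (ZFSet.pair_mem_prod.1 (hon.1.1 hy)).1
    · intro h
      exact ⟨_, pair_app_mem hon.1 h⟩
  -- the choice function
  obtain ⟨f, hfM, hf⟩ : ∃ f, M f ∧ f = (ZFSet.prod a b).sep fun z =>
      R M (cons (fst z) (cons (snd z) v)) ∧ ∃ γ ∈ dm g, app g γ = snd z ∧
        ∀ δ ∈ γ, ¬ R M (cons (fst z) (cons (app g δ) v)) := by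
    refine ⟨_, ?_, rfl⟩
    have h1 : Dfb ZFm (fun M v => R M (fun i => ch_F i M v)) := hR.comp ch_F ch_tm_F
    have h2 : Dfb ZFm (fun M v => R M (fun i => ch_G i M v)) := hR.comp ch_G ch_tm_G
    have h3 : Dfb ZFm (fun M v => ∀ δ ∈ v 0, ¬ R M (fun i => ch_G i M (cons δ v))) :=
      Dfb.ball (R := fun M v => ¬ R M (fun i => ch_G i M v)) ktr_zfm (Tm.var 0) h2.not
    have h4 : Dfb ZFm (fun M v => ∃ γ ∈ dm (v 1), app (v 1) γ = snd (v 0) ∧
        ∀ δ ∈ γ, ¬ R M (fun i => ch_G i M (cons δ (cons γ v)))) :=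
      Dfb.bex (R := fun M v => app (v 2) (v 0) = snd (v 1) ∧
        ∀ δ ∈ v 0, ¬ R M (fun i => ch_G i M (cons δ v))) ktr_zfm (Tm.dm (Tm.var 1))
        ((Dfb.eq (Tm.app (Tm.var 2) (Tm.var 0)) (Tm.snd (Tm.var 1))).and h3)
    have h5 := (Tm.sep (h1.and h4) (Tm.prod (Tm.var 1) (Tm.var 2))).1 M k.toZFm
      (cons g (cons a (cons b v))) (((hv.cons hb).cons ha).cons hg)
    have e1 : ∀ z : V, (fun i => ch_F i M (cons z (cons g (cons a (cons b v))))) =
        cons (fst z) (cons (snd z) v) := by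
      intro z
      funext i
      match i with
      | 0 => rfl
      | 1 => rfl
      | n + 2 => rfl
    have e2 : ∀ δ γ z : V, (fun i => ch_G i M (cons δ (cons γ (cons z
        (cons g (cons a (cons b v))))))) = cons (fst z) (cons (app g δ) v) := by
      intro δ γ z
      funext i
      match i with
      | 0 => rfl
      | 1 => rfl
      | n + 2 => rfl
    simp only [e1, e2] at h5
    exact h5
  have hmem : ∀ x y, ZFSet.pair x y ∈ f ↔ (x ∈ a ∧ y ∈ b) ∧ R M (cons x (cons y v)) ∧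
      ∃ γ ∈ dm g, app g γ = y ∧ ∀ δ ∈ γ, ¬ R M (cons x (cons (app g δ) v)) := by
    intro x y
    rw [hf, ZFSet.mem_sep, fst_pair, snd_pair, ZFSet.pair_mem_prod]
  have hsvl : Svl f := by
    intro x y z hy hz
    obtain ⟨-, hRy, γ, hγ, hγy, hγl⟩ := (hmem x y).1 hy
    obtain ⟨-, hRz, δ, hδ, hδz, hδl⟩ := (hmem x z).1 hz
    obtain ⟨c, hc, rfl⟩ := Ordinal.mem_toZFSet_iff.1 ((hdg γ).1 hγ)
    obtain ⟨d, hd, rfl⟩ := Ordinal.mem_toZFSet_iff.1 ((hdg δ).1 hδ)
    rcases lt_trichotomy c d with h | h | h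
    · refine absurd ?_ (hδl _ (Ordinal.toZFSet_mem_toZFSet_iff.2 h))
      rw [hγy]
      exact hRy
    · rw [← hγy, ← hδz, h]
    · refine absurd ?_ (hγl _ (Ordinal.toZFSet_mem_toZFSet_iff.2 h))
      rw [hδz]
      exact hRz
  have hall : ∀ x ∈ a, ∃ y, ZFSet.pair x y ∈ f := by
    intro x hx
    obtain ⟨y, hy, hxy⟩ := hb3 x hx
    obtain ⟨γ, hγ, hγy⟩ := hon.2 y hy
    obtain ⟨c, hc, rfl⟩ := Ordinal.mem_toZFSet_iff.1 hγ
    have hne : {d : Ordinal.{0} | d < α ∧ R M (cons x (cons (app g d.toZFSet) v))}.Nonempty := by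
      refine ⟨c, hc, ?_⟩
      rw [app_eq hgs hγy]
      exact hxy
    have hmin := csInf_mem hne
    generalize hd : sInf {d : Ordinal.{0} | d < α ∧
      R M (cons x (cons (app g d.toZFSet) v))} = d at hmin
    obtain ⟨h1, h2⟩ := hmin
    have h3 : d.toZFSet ∈ α.toZFSet := Ordinal.toZFSet_mem_toZFSet_iff.2 h1
    refine ⟨app g d.toZFSet, (hmem _ _).2 ⟨⟨hx, app_mem hon.1 h3⟩, h2, d.toZFSet,
      (hdg _).2 h3, rfl, ?_⟩⟩
    intro δ hδ h4
    obtain ⟨e, he, rfl⟩ := Ordinal.mem_toZFSet_iff.1 hδ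
    have h5 : e ∈ {d : Ordinal.{0} | d < α ∧ R M (cons x (cons (app g d.toZFSet) v))} :=
      ⟨he.trans h1, h4⟩
    have h6 := csInf_le' h5
    rw [hd] at h6
    exact absurd he (not_lt.2 h6)
  refine ⟨f, hfM, hsvl, ?_, ?_⟩
  · ext x
    rw [mem_dm]
    constructor
    · rintro ⟨y, hy⟩
      exact ((hmem x y).1 hy).1.1
    · exact hall x
  · intro x hx
    obtain ⟨y, hy⟩ := hall x hx
    rw [app_eq hsvl hy]
    exact ((hmem x y).1 hy).2.1

end SE
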