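import Pool.Agent.H38.SE.TarS

/-! # SB: secured facts persist -/

set_option linter.unusedVariables false

open Ordinal Order Set
open scoped ZFSet

namespace SE

open SF

theorem pf_SB (_hBA : T_BA) (hSA : T_SA) : T_SB := by
  intro D hD ρ G ρ' G' hE hSt
  obtain ⟨-, -, -, -, hX⟩ := hSA D hD ρ G hSt
  obtain ⟨-, -, hW, hTr, -, -, -, -⟩ := hX ρ' G' hE
  have hS : ∀ a x, D.Sec ρ G a x → D.Sec ρ' G' a x := by
    intro a x h ρ'' G'' hE' hR
    refine h ρ'' G'' (hTr ρ'' G'' hE') ?_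
    intro i hi hp
    refine hR i hi ?_
    obtain ⟨j, hj, h1, h2⟩ := hp
    exact ⟨j, hE.sub hj, h1, h2⟩
  refine ⟨hS, ?_⟩
  rintro a y ⟨v, hv, hvR, hs⟩
  exact ⟨v, hW v hv, hvR, hS a _ hs⟩

end SE
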