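import Pool.Agent.H90.SE.ZG

/-! # ZM: labels of type 2, existence of promises -/

set_option linter.unusedVariables false

open Ordinal Order Set
open scoped ZFSet

namespace SE

open SF

theorem zm_dec {D : Cx} {ρ : V} {X X' : V → Prop} (h : D.Dec ρ X)
    (he : ∀ G, D.Gn ρ G → (X G ↔ X' G)) : D.Dec ρ X' := by
  obtain ⟨O, hO, h1⟩ := h
  exact ⟨O, hO, fun G hG => (he G hG).symm.trans (h1 G hG)⟩

/-- the set `insert k (lS k)` -/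
theorem zm_kp (hBA : T_BA) (hBJ : T_BJ) (hBR : T_BR) (hZA : T_ZA) (D : Cx) (hD : D.Ful)
    {k : V} (hk : k ∈ D.Lam) : insert k (lS k) ∈ D.H ∧ insert k (lS k) ⊆ D.Lam ∧
    Tr (insert k (lS k)) ∧ lS k ∈ D.H ∧ Lab D.L k ∧ D.N k := by
  have hok := hD.ok
  obtain ⟨hLH, hLC, -⟩ := hZA D hD
  have hkH := hLH hk
  obtain ⟨-, hlab, -⟩ := hBA.2.2.2.2.2.2 _ _ hLC
  obtain ⟨hLab, hSL, -, hC, hsub⟩ := hlab k hk
  have hleg := (hZA D hD).2.2.1 k hk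
  have hSH : lS k ∈ D.H := by
    have h1 : insert k ∅ ∈ D.H := ((hBR D hok).2.2.2.1 k hkH ∅ (by
      have h2 := (hBR D hok).1
      exact h2 ∅ k hok.zfc.toZFm.mempty hkH (fun x hx => absurd hx (ZFSet.notMem_empty x)))).2.2
    exact ((hBR D hok).2.2.2.2.1 _ h1).2.2.2.1 k (ZFSet.mem_insert_iff.2 (Or.inl rfl))
  exact ⟨((hBR D hok).2.2.2.1 k hkH _ hSH).2.2, hsub, (hBA.2.2.2.2.2.2 _ _ hC).1, hSH, hLab,
    (hBJ D hok).2.2.1 k hkH⟩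

/-- creation of a label with a promise -/
theorem zm_main (hAH : T_AH) (hBA : T_BA) (hBJ : T_BJ) (hBK : T_BK)
    (hBO : T_BO) (hZA : T_ZA) (hZB : T_ZB) (hZY : T_ZY) (D : Cx) (hD : D.Ful) {G : V}
    (hG : D.Gn D.Lam G) {k s : V} (hs : s ∈ D.H) (hsL : s ⊆ D.Lam) (hTr : Tr s)
    (hk : k ∈ s) (c : ℕ) (hc : 2 ≤ c) (X : V → Prop) (hX : D.Dec s X) (hXG : X (gs G s))
    (hX2 : c = 2 → ∀ G, D.Gn s G → X G → D.Beta k G ∧ D.SecS s G (ev G (lB k)) (cg G k))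
    (hX3 : c = 3 → ∀ G, D.Gn s G → X G → ¬ D.Beta k G ∧ D.SecS s G (ev G (lA k)) (cg G k)) :
    ∃ i ∈ D.Lam, ev G (lZ i) = prl (kc c) (cg G k) := by
  have hok := hD.ok
  obtain ⟨hLH, hLC, -, -, hZA5⟩ := hZA D hD
  obtain ⟨hZA6, -⟩ := hZA5 G hG
  obtain ⟨hSt, -, -, -, hval, -⟩ := hZA6 s hs hsL hTr
  have hsN : D.N s := (hBJ D hok).2.2.1 s hs
  have hsC : Cld D.L s := hSt.c
  obtain ⟨-, hBO2, hBO3, hBO4, hBO5, -⟩ := hBO D hok s hsN hsC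
  obtain ⟨O, hO, hOX⟩ := hX
  obtain ⟨n1, n2, n3⟩ := hBO4 c
  obtain ⟨z1, z2, z3⟩ := hBO4 0
  obtain ⟨c1, c2, c3⟩ := hBO5 k hk
  obtain ⟨Y1, hY1, hY1N, hY1e⟩ := hBO3 _ _ n1 c1 n2 c2
  obtain ⟨Z, hZ, hZN, hZe⟩ := hBO2 Y1 _ O hY1 z1 hO hY1N z2
  have hkc0 : ∀ e : ℕ, Rl (kc e) := fun e => (hAH.2.2.2.1 e).1
  have hcases : ∀ G', D.Gn s G' → (X G' ∧ ev G' Z = prl (kc c) (cg G' k)) ∨
      ev G' Z = kc 0 := by
    intro G' hG'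
    by_cases h : X G'
    · left
      refine ⟨h, ?_⟩
      rw [(hZe G' hG').1 ((hOX G' hG').1 h), hY1e G' hG', n3 G' hG', c3 G' hG']
    · right
      rw [(hZe G' hG').2 (fun h' => h ((hOX G' hG').2 h')), z3 G' hG']
  have hcgR : ∀ G', D.Gn s G' → ∀ j ∈ s, Rl (cg G' j) := fun G' hG' j hj =>
    ((hBK D hok s G' hsN hsC hG').2 j hj).1
  have hlab : lab (nS 0) ∅ s (knm D.L s 0) Z (knm D.L s 0) (knm D.L s 0) ∈ D.Lam := by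
    refine hZB D hD 0 s _ Z _ _ (by omega) hs hsL hTr z1 hZ z1 z1 z2 hZN z2 z2 ?_ (Or.inl ?_)
    · rintro G' hG' ⟨j, hj, -, h2⟩
      rw [z3 G' hG'] at h2
      obtain ⟨hLabj, hSj, -⟩ := (hBA.2.2.2.2.2.2 _ _ hsC).2.1 j hj
      have hjN := hok.zfc.toZFm.trans _ hsN j hj
      obtain ⟨-, -, hSN, -, hZjN, -, -⟩ := zg_comp hok.zfc.toZFm hjN
      have h3 := ((hBK D hok s G' hsN hsC hG').1 (lS j) (lZ j) hSN hSj hLabj.tr hZjN hLabj.z).1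
      exact hAH.2.2.2.2.2 _ _ h3 (hcgR G' hG' j hj) h2.symm
    · intro G' hG' k' hk'
      obtain ⟨-, -, -, -, eZ, -, -⟩ := hBA.1 (nS 0) ∅ s (knm D.L s 0) Z (knm D.L s 0)
        (knm D.L s 0)
      obtain ⟨-, -, eS, -⟩ := hBA.1 (nS 0) ∅ s (knm D.L s 0) Z (knm D.L s 0)
        (knm D.L s 0)
      have hck := hcgR G' hG' k hk
      have hck' := hcgR G' hG' k' hk'
      have hpr : ∀ (e : ℕ) (w : V), Rl w → ev G' Z = prl (kc e) w →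
          c = e ∧ cg G' k = w ∧ X G' := by
        intro e w hw h
        rcases hcases G' hG' with ⟨h1, h2⟩ | h2
        · rw [h2] at h
          obtain ⟨h3, h4⟩ := hAH.2.1 _ _ _ _ (hkc0 c) hck (hkc0 e) hw h
          exact ⟨hAH.2.2.2.2.1 _ _ h3, h4, h1⟩
        · rw [h2] at h
          exact absurd h.symm (hAH.2.2.2.2.2 _ _ (hkc0 e) hw)
      refine ⟨?_, ?_, ?_, ?_⟩
      · intro _ _ y hy hyR h
        rw [eZ] at h
        obtain ⟨h1, -⟩ := hpr 0 _ (hAH.1 _ _ hck' hyR).1 h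
        omega
      · intro _ _ y hy hyR h
        rw [eZ] at h
        obtain ⟨h1, -⟩ := hpr 1 _ (hAH.1 _ _ hck' hyR).1 h
        omega
      · intro _ h
        rw [eZ] at h
        obtain ⟨h1, h2, h3⟩ := hpr 2 _ hck' h
        have hkk : k = k' := (hZY D hok s G' hsN hsC hG').1 k hk k' hk' h2
        rw [eS, ← hkk]
        exact hX2 h1 G' hG' h3
      · intro _ h
        rw [eZ] at h
        obtain ⟨h1, h2, h3⟩ := hpr 3 _ hck' h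
        have hkk : k = k' := (hZY D hok s G' hsN hsC hG').1 k hk k' hk' h2
        rw [eS, ← hkk]
        exact hX3 h1 G' hG' h3
  refine ⟨_, hlab, ?_⟩
  obtain ⟨-, -, -, -, eZ, -, -⟩ := hBA.1 (nS 0) ∅ s (knm D.L s 0) Z (knm D.L s 0)
    (knm D.L s 0)
  rw [eZ]
  obtain ⟨-, -, -, -, -, h1⟩ := (hBK D hok D.Lam G hD.lam hLC hG).1 s Z hsN hsL hTr hZ hZN
  rw [← h1 s (fun _ h => h)]
  have h2 : ev (gs G s) Z = prl (kc c) (cg (gs G s) k) := by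
    rw [(hZe _ hSt.g).1 ((hOX _ hSt.g).1 hXG), hY1e _ hSt.g, n3 _ hSt.g, c3 _ hSt.g]
  rw [h2, (hval k hk).1]

/-- the property of (1) and (2) is decided -/
theorem zm_decB (hBA : T_BA) (hBJ : T_BJ) (hBO : T_BO) (hZX : T_ZX) (hWD : T_WD) (D : Cx)
    (hD : D.Ful) {k s : V} (hs : s ∈ D.H) (hsC : Cld D.L s) (hk : k ∈ s) :
    D.Dec s (fun G => D.Beta k G) ∧
    D.Dec s (fun G => D.SecS s G (ev G (lA k)) (cg G k)) ∧
    D.Dec s (fun G => D.SecS s G (ev G (lB k)) (cg G k)) := by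
  have hok := hD.ok
  have hsN : D.N s := (hBJ D hok).2.2.1 s hs
  obtain ⟨-, -, hWD3, -, hWD5⟩ := hWD D hok hD.tab s hs hsC
  obtain ⟨hLab, hS, -⟩ := (hBA.2.2.2.2.2.2 _ _ hsC).2.1 k hk
  have hkN := hok.zfc.toZFm.trans _ hsN k hk
  obtain ⟨-, -, hSN, -, -, hAN, hBN⟩ := zg_comp hok.zfc.toZFm hkN
  obtain ⟨-, -, -, -, hBO5, hBO6⟩ := hBO D hok s hsN hsC
  obtain ⟨c1, c2, c3⟩ := hBO5 k hk
  obtain ⟨A', a1, a2, a3⟩ := hBO6 (lS k) (lA k) hSN hS hLab.tr hAN hLab.a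
  obtain ⟨B', b1, b2, b3⟩ := hBO6 (lS k) (lB k) hSN hS hLab.tr hBN hLab.b
  refine ⟨(hWD5 k hk).1, ?_, ?_⟩
  · refine zm_dec (hWD3 A' _ a1 c1 a2 c2).2.1 fun G' hG' => ?_
    rw [a3 G' hG', c3 G' hG']
  · refine zm_dec (hWD3 B' _ b1 c1 b2 c2).2.1 fun G' hG' => ?_
    rw [b3 G' hG', c3 G' hG']

theorem pf_ZM (hAH : T_AH) (hBA : T_BA) (hBJ : T_BJ) (hBK : T_BK) (hBL : T_BL) (_hBN : T_BN)
    (hBO : T_BO) (hBR : T_BR) (hSA : T_SA) (_hSB : T_SB) (hSE : T_SE) (hZA : T_ZA)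
    (hZB : T_ZB) (hZE : T_ZE) (hZX : T_ZX) (hZY : T_ZY) (hWD : T_WD) (hTP2 : T_TP2) :
    T_ZM := by
  intro D hD G hG k hk hke
  have hok := hD.ok
  obtain ⟨hkpH, hkpL, hkpT, hSH, hLab, hkN⟩ := zm_kp hBA hBJ hBR hZA D hD hk
  obtain ⟨hLH, hLC, -, -, hZA5⟩ := hZA D hD
  obtain ⟨hZA6, -⟩ := hZA5 G hG
  obtain ⟨hkpSt, hkpCl, -, -, hkpv, hkpE⟩ := hZA6 _ hkpH hkpL hkpT
  have hkk : k ∈ insert k (lS k) := ZFSet.mem_insert_iff.2 (Or.inl rfl)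
  have hSk : lS k ⊆ insert k (lS k) := fun x hx => ZFSet.mem_insert_iff.2 (Or.inr hx)
  obtain ⟨-, -, hSN, -, -, hAN, hBN⟩ := zg_comp hok.zfc.toZFm hkN
  have hkpN : D.N (insert k (lS k)) := (hBJ D hok).2.2.1 _ hkpH
  -- the reals
  obtain ⟨hev1, hcg1⟩ := hBK D hok _ _ hkpN hkpSt.c hkpSt.g
  obtain ⟨hAR, hAW, -⟩ := hev1 (lS k) (lA k) hSN hSk hLab.tr hAN hLab.a
  obtain ⟨hBR', hBW, -⟩ := hev1 (lS k) (lB k) hSN hSk hLab.tr hBN hLab.b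
  obtain ⟨hcR, hcW, -⟩ := hcg1 k hkk
  obtain ⟨vc, -, -, vA, vB⟩ := hkpv k hkk
  rw [vA] at hAR hAW
  rw [vB] at hBR' hBW
  rw [vc] at hcR hcW
  have hclLam : ∀ s ∈ D.H, s ⊆ D.Lam → Tr s → Cld D.L s := fun s _ h1 h2 =>
    (hBA.2.2.2.2.2.2 _ _ hLC).2.2 s h1 h2
  refine ⟨?_, ?_, ?_⟩
  · -- (1)
    rintro ⟨ρ', G0, hE0, hCl0, hno0, hS0⟩
    have hρ'N : D.N ρ' := (hBJ D hok).2.2.1 _ hE0.st.h
    obtain ⟨hevr, hcgr⟩ := hBK D hok ρ' G0 hρ'N hE0.st.c hE0.st.g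
    have hCl0' : D.Cl (insert k (lS k)) ρ' G0 := by
      have h1 := (hSE D hok hD.tab ρ' G0 hE0.st (lS k) (fun x hx => hE0.sub (hSk hx))).1 hCl0
      refine (hSE D hok hD.tab ρ' G0 hE0.st (insert k (lS k)) hE0.sub).2 ⟨h1.1, ?_⟩
      intro k' hk' i hi hk'i
      rcases ZFSet.mem_insert_iff.1 hk' with rfl | hk''
      · obtain ⟨hLabi, hSi, -⟩ := (hBA.2.2.2.2.2.2 _ _ hE0.st.c).2.1 i hi
        have hiN := hok.zfc.toZFm.trans _ hρ'N i hi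
        obtain ⟨-, -, hSiN, -, hZiN, -, -⟩ := zg_comp hok.zfc.toZFm hiN
        obtain ⟨-, -, -, -, -, e1⟩ := hevr (lS i) (lZ i) hSiN hSi hLabi.tr hZiN hLabi.z
        have e2 := e1 (lS i) (fun _ h => h)
        obtain ⟨-, -, e3, -⟩ := hcgr k' (hSi hk'i)
        have e4 := e3 (lS i) hLabi.tr hk'i
        have hne : lE k' ≠ nS 1 := by
          rw [hke]
          intro h
          have := nS_inj.1 h
          omega
        refine ⟨fun h => absurd h hne, fun h => absurd h hne, ?_, ?_⟩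
        · intro _ h
          rw [e2, e4] at h
          exact absurd h (hno0 i hi).1
        · intro _ h
          rw [e2, e4] at h
          exact absurd h (hno0 i hi).2
      · exact h1.2 k' hk'' i hi hk'i
    have hkρ : k ∈ ρ' := hE0.sub hkk
    obtain ⟨-, -, hdB⟩ := zm_decB hBA hBJ hBO hZX hWD D hD hE0.st.h hE0.st.c hkρ
    obtain ⟨-, -, hforce⟩ := hZX D hok ρ' hρ'N hE0.st.c _ hdB
    obtain ⟨p', hp', hpf⟩ := hforce G0 hE0.st.g hS0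
    obtain ⟨G', ρ'', hE', hp'G, hρ''H, hkρ'', hρ''L, hρ''T, hW'', hS''⟩ :=
      hTP2 D hD G hG _ hkpH hkpL hkpT ρ' G0 p' hE0 hCl0' hp'
    have hS1 := hS'' _ _ (hpf G' hE'.st.g hp'G)
    have hvals := (((hSA D hok _ _ hkpSt).2.2.2.2 ρ' G' hE').2.2.2.2.2.1 k hkk)
    rw [hvals.1, hvals.2.2.2.2, vc, vB] at hS1
    have hρ''C := hclLam ρ'' hρ''H hρ''L hρ''T
    obtain ⟨dB, dSA, dSB⟩ := zm_decB hBA hBJ hBO hZX hWD D hD hρ''H hρ''C (hkρ'' hkk)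
    have hρ''N : D.N ρ'' := (hBJ D hok).2.2.1 _ hρ''H
    refine zm_main hAH hBA hBJ hBK hBO hZA hZB hZY D hD hG hρ''H hρ''L hρ''T (hkρ'' hkk) 2 le_rfl
      (fun G => D.Beta k G ∧ D.SecS ρ'' G (ev G (lB k)) (cg G k)) ?_ ?_ ?_ ?_
    · exact (hZX D hok ρ'' hρ''N hρ''C _ dB).2.1 _ dSB
    · obtain ⟨-, -, -, -, hv, -⟩ := hZA6 _ hρ''H hρ''L hρ''T
      obtain ⟨w1, -, -, -, w2⟩ := hv k (hkρ'' hkk)
      rw [w1, w2]
      refine ⟨?_, hS1⟩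
      refine (((hZY D hok D.Lam G hD.lam hLC hG).2.2 k hk ρ'' hρ''N hρ''L hρ''T
        (hkρ'' hkk)).2).2 ?_
      exact ⟨ρ', G0, hE0, hCl0, hno0, hS0⟩
    · intro _ G1 _ h
      exact h
    · intro h
      omega
  · -- (2)
    intro hnB hS4
    obtain ⟨s', hs'H, hks', hs'L, hs'T, hsec⟩ := (hZE D hD G hG _ hkpH hkpL hkpT _ _ hAW hAR hcW
      hcR).1 hS4
    have hs'C := hclLam s' hs'H hs'L hs'T
    obtain ⟨dB, dSA, dSB⟩ := zm_decB hBA hBJ hBO hZX hWD D hD hs'H hs'C (hks' hkk)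
    have hs'N : D.N s' := (hBJ D hok).2.2.1 _ hs'H
    refine zm_main hAH hBA hBJ hBK hBO hZA hZB hZY D hD hG hs'H hs'L hs'T (hks' hkk) 3 (by omega)
      (fun G => ¬ D.Beta k G ∧ D.SecS s' G (ev G (lA k)) (cg G k)) ?_ ?_ ?_ ?_
    · exact (hZX D hok s' hs'N hs'C _ (hZX D hok s' hs'N hs'C _ dB).1).2.1 _ dSA
    · obtain ⟨-, -, -, -, hv, -⟩ := hZA6 _ hs'H hs'L hs'T
      obtain ⟨w1, -, -, w2, -⟩ := hv k (hks' hkk)
      rw [w1, w2]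
      refine ⟨?_, hsec⟩
      intro h
      exact hnB ((((hZY D hok D.Lam G hD.lam hLC hG).2.2 k hk s' hs'N hs'L hs'T
        (hks' hkk)).2).1 h)
    · intro h
      omega
    · intro _ G1 _ h
      exact h
  · -- (3)
    intro hS4 hno
    obtain ⟨s', hs'H, hks', hs'L, hs'T, hsec⟩ := (hZE D hD G hG _ hkpH hkpL hkpT _ _ hBW hBR' hcW
      hcR).1 hS4
    obtain ⟨-, hCl, -, -, hv, -⟩ := hZA6 _ hs'H hs'L hs'T
    obtain ⟨w1, -, -, -, w2⟩ := hv k (hks' hkk)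
    refine ⟨s', gs G s', hkpE s' hs'H hks' hs'L hs'T, hCl (lS k) (fun x hx => hks' (hSk hx)),
      ?_, ?_⟩
    · intro i hi
      rw [w1, (hv i hi).2.2.1]
      exact hno i (hs'L hi)
    · rw [w1, w2]
      exact hsec

end SE
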