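import Pool.Agent.H38.SE.TarZ

/-! # ZG: invariance -/

set_option linter.unusedVariables false

open Ordinal Order Set
open scoped ZFSet

namespace SE

open SF

/-- components of labels in models -/
theorem zg_comp {M : V → Prop} (k : ZFm M) {i : V} (hi : M i) :
    M (lE i) ∧ M (lG i) ∧ M (lS i) ∧ M (lY i) ∧ M (lZ i) ∧ M (lA i) ∧ M (lB i) := by
  have h : ∀ x, M x → M (fst x) ∧ M (snd x) := by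
    intro x hx
    exact ⟨(Tm.fst (Tm.var 0)).1 M k (fun _ => x) fun _ => hx,
      (Tm.snd (Tm.var 0)).1 M k (fun _ => x) fun _ => hx⟩
  have h1 := h i hi
  have h2 := h _ h1.2
  have h3 := h _ h2.2
  have h4 := h _ h3.2
  have h5 := h _ h4.2
  have h6 := h _ h5.2
  exact ⟨h1.1, h2.1, h3.1, h4.1, h5.1, h6.1, h6.2⟩

/-- the construction -/
theorem zg_main (hBA : T_BA) (hBC : T_BC) (hBJ : T_BJ) (hBK : T_BK) (hBL : T_BL)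
    (hBO : T_BO) (hBR : T_BR) (hSA : T_SA) (hSB : T_SB) (hSC : T_SC) (hSD : T_SD) (hZX : T_ZX)
    (hWD : T_WD) (hTP3 : T_TP3) (D : Cx) (hD : D.Ful) (ρ G ρ1 G1 k y : V) (hSt : D.St ρ G)
    (hE : D.Ex ρ G ρ1 G1) (hk : k ∈ ρ) (hCl : D.Cl (lS k) ρ1 G1) (hy : D.W G y)
    (hyR : Rl y) (hside : D.Side k ρ G y) :
    ∃ ρ2 G2, D.Ex ρ1 G1 ρ2 G2 ∧ D.Cl (lS k) ρ2 G2 ∧ D.SecS ρ2 G2 (ev G2 (lA k)) y := by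
  obtain ⟨ρ', G', hE', hCl', hSec'⟩ := hside
  have kz := hD.ok.zfc.toZFm
  have hok := hD.ok
  obtain ⟨hρN, -, -, -, hSA5⟩ := hSA D hok ρ G hSt
  obtain ⟨hρ'N, -⟩ := hSA D hok ρ' G' hE'.st
  obtain ⟨hρ1N, -⟩ := hSA D hok ρ1 G1 hE.st
  obtain ⟨hTr, hlab, -⟩ := hBA.2.2.2.2.2.2 _ _ hSt.c
  obtain ⟨hLab, hSρ, -, -, -⟩ := hlab k hk
  have hTrk : Tr (lS k) := hLab.tr
  have hkH : k ∈ D.H := (hBJ D hok).2.1 _ hSt.h hk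
  have hkN : D.N k := (hBJ D hok).2.2.1 k hkH
  obtain ⟨-, -, hSN, -, -, hAN, hBN⟩ := zg_comp kz hkN
  have hSH : lS k ∈ D.H := ((hBR D hok).2.2.2.2.1 ρ hSt.h).2.2.2.1 k hk
  -- the name of `y`
  obtain ⟨Yn, hYn, hYnN, hYne⟩ : ∃ Y, D.N Y ∧ Nam D.L ρ Y ∧ ev G Y = y := by
    obtain ⟨θ, hθ, rfl⟩ := hy
    obtain ⟨Y, h1, h2, h3⟩ := (hBO D hok ρ hρN hSt.c).1 θ hθ
    exact ⟨Y, h1, h2, (h3 G hSt.g).1 hyR⟩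
  obtain ⟨Y', hY', hY'N, hY'e⟩ := (hBO D hok ρ' hρ'N hE'.st.c).2.2.2.2.2 ρ Yn hρN hE'.sub hTr
    hYn hYnN
  obtain ⟨A', hA', hA'N, hA'e⟩ := (hBO D hok ρ' hρ'N hE'.st.c).2.2.2.2.2 (lS k) (lA k) hSN
    (fun _ h => hE'.sub (hSρ h)) hTrk hAN hLab.a
  -- values over `ρ'`
  have hval : ∀ G3, D.Gn ρ' G3 → gs G3 ρ = G → ev G3 A' = ev G (lA k) ∧ ev G3 Y' = y := by
    intro G3 hG3 hg
    obtain ⟨h1, -⟩ := hBK D hok ρ' G3 hρ'N hE'.st.c hG3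
    obtain ⟨-, -, -, -, -, h2⟩ := h1 (lS k) (lA k) hSN (fun _ h => hE'.sub (hSρ h)) hTrk hAN
      hLab.a
    obtain ⟨-, -, -, -, -, h3⟩ := h1 ρ Yn hρN hE'.sub hTr hYn hYnN
    refine ⟨?_, ?_⟩
    · rw [hA'e G3 hG3, ← h2 ρ hSρ, hg]
    · rw [hY'e G3 hG3, ← h3 ρ (fun _ h => h), hg, hYne]
  -- the deciding condition
  obtain ⟨hWD1, -, hWD3, -⟩ := hWD D hok hD.tab ρ' hE'.st.h hE'.st.c
  have hdec := (hZX D hok ρ' hρ'N hE'.st.c _ (hWD1 (lS k) hSH fun _ h => hE'.sub (hSρ h))).2.1 _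
    (hWD3 A' Y' hA' hY' hA'N hY'N).2.1
  obtain ⟨-, -, hforce⟩ := hZX D hok ρ' hρ'N hE'.st.c _ hdec
  obtain ⟨hv1, hv2⟩ := hval G' hE'.st.g hE'.res
  have hAev : ev G' (lA k) = ev G (lA k) := ((hSA5 ρ' G' hE').2.2.2.2.2.1 k hk).2.2.2.1
  obtain ⟨p', hp'G, hp'f⟩ := hforce G' hE'.st.g ⟨hCl', by rw [hv1, hv2, ← hAev]; exact hSec'⟩
  have hp'P : p' ∈ D.P ρ' := ((hBJ D hok).2.2.2.2 ρ' hρ'N hE'.st.c).2 G' hE'.st.g |>.2.1.1 hp'G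
  obtain ⟨ρ'', p'', hρ''H, hρ''C, hρρ'', hint, hp''P, hrst, htr⟩ := hTP3 D hD ρ ρ' ρ1 p' hSt.h
    hE'.st.h hE.st.h hE'.st.c hTr hE'.sub hE.sub hp'P
  have hrG : rst ρ p'' ∈ G := by
    rw [hrst]
    obtain ⟨-, h1⟩ := hBL D hok ρ' G' hρ'N hE'.st.c hE'.st.g
    obtain ⟨-, -, -, -, h2, -⟩ := h1 ρ hρN hE'.sub hTr
    have h3 := h2 p' hp'G
    rwa [hE'.res] at h3
  obtain ⟨G2, hE12, hp''G2, hE2, hE22⟩ := hSC D hok ρ G ρ1 G1 ρ'' p'' hSt hE hρ''H hρ''C hρρ''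
    hint hp''P hrG
  have hρ''N : D.N ρ'' := (hBJ D hok).2.2.1 ρ'' hρ''H
  have hp''g : p'' ∈ gs G2 ρ'' := by
    unfold gs
    exact ZFSet.mem_sep.2 ⟨hp''G2, ((hBC.2.2.2.1 _ _ _).1 hp''P).2.1⟩
  obtain ⟨G3, hG3, hp'G3, hgs3, -, hcl3, hsec3⟩ := htr (gs G2 ρ'') hE2.st.g hp''g
  have hgs3' : gs G3 ρ = G := hgs3.trans hE2.res
  obtain ⟨hf1, hf2⟩ := hp'f G3 hG3 hp'G3
  obtain ⟨hw1, hw2⟩ := hval G3 hG3 hgs3'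
  rw [hw1, hw2] at hf2
  have hcl : D.Cl (lS k) ρ'' (gs G2 ρ'') := hcl3 (lS k) hSH hSρ hTrk hf1
  have hsec : D.SecS ρ'' (gs G2 ρ'') (ev G (lA k)) y := hsec3 _ _ hf2
  have hEρ : D.Ex ρ G (ρ1 ∪ ρ'') G2 := (hSA5 ρ1 G1 hE).2.2.2.1 _ _ hE12
  have hA2 : ev G2 (lA k) = ev G (lA k) := ((hSA5 _ G2 hEρ).2.2.2.2.2.1 k hk).2.2.2.1
  refine ⟨ρ1 ∪ ρ'', G2, hE12, ?_, ?_⟩
  · obtain ⟨-, -, h3⟩ := hSD D hok hD.tab (lS k) (ρ1 ∪ ρ'') G2 hE12.st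
      (fun x hx => ZFSet.mem_union.2 (Or.inl (hE.sub (hSρ hx))))
    refine h3 ρ1 ρ'' hρ1N hρ''N (hBA.2.2.2.2.2.2 _ _ hE.st.c).1
      (hBA.2.2.2.2.2.2 _ _ hρ''C).1 rfl ?_ hcl
    rw [hE12.res]
    exact hCl
  · rw [hA2]
    exact (hSB D hok ρ'' (gs G2 ρ'') (ρ1 ∪ ρ'') G2 hE22 hE2.st).2 _ _ hsec

theorem pf_ZG (_hAB : T_AB) (hBA : T_BA) (hBC : T_BC) (_hBD : T_BD) (hBJ : T_BJ) (hBK : T_BK)
    (hBL : T_BL) (_hBN : T_BN) (hBO : T_BO) (hBR : T_BR) (hSA : T_SA) (hSB : T_SB) (hSC : T_SC)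
    (hSD : T_SD) (hZX : T_ZX) (hWD : T_WD) (hTP3 : T_TP3) : T_ZG := by
  intro D hD ρ G ρ1 G1 k y hSt hE hk hCl hy hyR
  have hok := hD.ok
  obtain ⟨-, -, -, -, hSA5⟩ := hSA D hok ρ G hSt
  obtain ⟨hTr, hlab, -⟩ := hBA.2.2.2.2.2.2 _ _ hSt.c
  obtain ⟨hLab, hSρ, -, -, -⟩ := hlab k hk
  have hmain := zg_main hBA hBC hBJ hBK hBL hBO hBR hSA hSB hSC hSD hZX hWD hTP3 D hD ρ G ρ1 G1 k
    y hSt hE hk hCl hy hyR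
  refine ⟨⟨hmain, ?_⟩, ?_⟩
  · rintro ⟨ρ', G', h1, h2, h3⟩
    exact ⟨ρ', G', (hSA5 ρ1 G1 hE).2.2.2.1 _ _ h1, h2, h3⟩
  · intro hside hsB hU
    obtain ⟨ρ2, G2, hE2, hCl2, hS2⟩ := hmain hside
    obtain ⟨-, -, -, -, hSA5'⟩ := hSA D hok ρ1 G1 hE.st
    obtain ⟨-, -, hW12, -, -, hev12, hgs12, -⟩ := hSA5' ρ2 G2 hE2
    obtain ⟨-, -, hSA3, -, -⟩ := hSA D hok ρ2 G2 hE2.st
    have hkH : k ∈ D.H := (hBJ D hok).2.1 _ hSt.h hk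
    have hkN : D.N k := (hBJ D hok).2.2.1 k hkH
    obtain ⟨-, -, hSN, -, -, hAN, hBN⟩ := zg_comp hD.ok.zfc.toZFm hkN
    refine hU ⟨ρ2, G2, y, ?_, hCl2, hW12 y ((hSA5 ρ1 G1 hE).2.2.1 y hy), hyR, hS2, ?_⟩
    · rw [← (hgs12 (lS k) (fun _ h => hE.sub (hSρ h)) hLab.tr).1]
      exact (hSA3 (lS k) hSN (fun _ h => hE2.sub (hE.sub (hSρ h))) hLab.tr).2
    · rw [(hev12 k (hE.sub hk)).2.2.2.2]
      exact (hSB D hok ρ1 G1 ρ2 G2 hE2 hE.st).2 _ _ hsB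

end SE
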